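import Pool.Agent.H6.N4D.TB

/-!
# The end game: the first phase
-/

set_option autoImplicit false

open Finset

namespace Pool.Agent.H54.N4D

open Pool.Agent.H6.N4D

theorem ph1_sign (a b : ℝ) : ∃ τ : ℝ, (τ = 1 ∨ τ = -1) ∧
    nd (a - τ * b) = min (nd (a - b)) (nd (a + b)) := by
  rcases le_total (nd (a - b)) (nd (a + b)) with h | h
  · exact ⟨1, Or.inl rfl, by rw [min_eq_left h, one_mul]⟩
  · exact ⟨-1, Or.inr rfl, by rw [min_eq_right h]; congr 1; ring⟩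

theorem ph1_le {τ : ℝ} (h : τ = 1 ∨ τ = -1) (a b : ℝ) :
    min (nd (a - b)) (nd (a + b)) ≤ nd (a - τ * b) := by
  rcases h with h | h <;> subst h
  · rw [one_mul]
    exact min_le_left _ _
  · rw [show a - -1 * b = a + b by ring]
    exact min_le_right _ _

theorem ph1_tri (a b c : ℝ) : min (nd (c - a)) (nd (c + a)) ≤
    min (nd (b - a)) (nd (b + a)) + min (nd (c - b)) (nd (c + b)) := by
  obtain ⟨σ, hσ, h1⟩ := ph1_sign b a
  obtain ⟨τ, hτ, h2⟩ := ph1_sign c b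
  have hστ : τ * σ = 1 ∨ τ * σ = -1 := by
    rcases hσ with h | h <;> rcases hτ with h' | h' <;> rw [h, h'] <;> norm_num
  refine (ph1_le hστ c a).trans ?_
  rw [← h1, ← h2, ← nd_pm hτ (b - σ * a)]
  have h3 := nd_add_le (τ * (b - σ * a)) (c - τ * b)
  have h4 : τ * (b - σ * a) + (c - τ * b) = c - τ * σ * a := by ring
  rwa [h4] at h3

theorem ph1_y_nonneg (S : Par) {ε₁ : ℝ} (hr : 0 < S.rho) (hε : 0 < ε₁) (θ : ℤ → ℝ) (k : ℕ)
    (t : ℤ) : 0 ≤ y1 S ε₁ θ k t := by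
  unfold y1
  have h1 := Par.x_pos (S := S) t
  exact mul_nonneg (by positivity) (le_min (nd_nonneg _) (nd_nonneg _))

theorem ph1_double (S : Par) {ε₁ : ℝ} (hh : 0 < S.h) (hr : 0 < S.rho) (hε : 0 < ε₁)
    (θ : ℤ → ℝ) (k : ℕ) (t : ℤ) :
    y1 S ε₁ θ (k + 1) t ≤ y1 S ε₁ θ k t + y1 S ε₁ θ k (t + 2 ^ k) := by
  have hx : S.x t ≤ S.x (t + 2 ^ k) := Par.x_mono hh (by
    have : (0 : ℤ) < 2 ^ k := by positivity
    linarith)
  have h1 := Par.x_pos (S := S) t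
  have h2 := ph1_tri (θ t) (θ (t + 2 ^ k)) (θ (t + 2 ^ k + 2 ^ k))
  have h3 : t + 2 ^ (k + 1) = t + 2 ^ k + 2 ^ k := by ring
  unfold y1
  rw [h3]
  have h4 : 0 ≤ S.rho * S.x t / ε₁ := by positivity
  have h5 : S.rho * S.x t / ε₁ ≤ S.rho * S.x (t + 2 ^ k) / ε₁ := by gcongr
  have h6 : 0 ≤ min (nd (θ (t + 2 ^ k + 2 ^ k) - θ (t + 2 ^ k)))
      (nd (θ (t + 2 ^ k + 2 ^ k) + θ (t + 2 ^ k))) := le_min (nd_nonneg _) (nd_nonneg _)
  have h7 := mul_le_mul_of_nonneg_left h2 h4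
  have h8 := mul_le_mul_of_nonneg_right h5 h6
  linarith

theorem pf_PH1 (hNEV : T_NEV) (hSIZ : T_SIZ) (hRMO : T_RMO) : T_PH1 := by
  intro K ε₁ η hK hε1 hε1' hη
  obtain ⟨X₁, hNE⟩ := hNEV K ε₁ η hK hε1 hε1' hη
  obtain ⟨X₂, hSI⟩ := hSIZ
  refine ⟨max X₁ X₂, ?_⟩
  intro S ε₀ κ θ φ hS hSK hX hε0 hε0' hκ hκ' hrel hz
  obtain ⟨hL, hP, hr1, hr2, hhr, hV1, hV2, hV3, hI, hl, hl2, hN, hcard⟩ :=
    hSI S hS (le_trans (le_max_right _ _) hX)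
  have hr0 := hS.hr0
  have hh0 := hS.hh
  have hlog2 : (0.69 : ℝ) < Real.log 2 := by linarith [Real.log_two_gt_d9]
  have hlog2' : Real.log 2 < (0.7 : ℝ) := by linarith [Real.log_two_lt_d9]
  have hNh : 12 ≤ S.N * S.h := by
    have h1 := hS.hI1
    have h2 : (1 : ℝ) ≤ S.K := by exact_mod_cast hS.hK
    have h3 : (1 : ℝ) ≤ S.K * S.L := by nlinarith
    nlinarith
  have hh8 : S.h < S.rho / 8 := by
    have h1 : S.rho ^ 4 ≤ S.rho / 100 := by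
      have h2 : S.rho ^ 3 ≤ 1 / 100 := by
        have h4 : S.rho ^ 3 ≤ (1 / 100 : ℝ) ^ 3 := by gcongr
        linarith [show (1 / 100 : ℝ) ^ 3 ≤ 1 / 100 by norm_num]
      have h3 : S.rho ^ 4 = S.rho ^ 3 * S.rho := by ring
      rw [h3]
      nlinarith
    linarith
  -- the constants
  have hs' : ∀ k : ℕ, ∃ s : ℝ, k ≤ S.J →
      S.cnt (fun t => 1 / 4 < |F1 S ε₁ θ k t - s|) ≤ κ * S.N := by
    intro k
    by_cases hk : k ≤ S.J
    · obtain ⟨z, hz⟩ := hz k hk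
      refine ⟨z.re, fun _ => le_trans (Par.cnt_mono ?_) hz⟩
      intro t _ ht
      refine lt_of_lt_of_le ht ?_
      have h1 := Complex.abs_re_le_norm ((F1 S ε₁ θ k t : ℂ) - z)
      simpa using h1
    · exact ⟨0, fun h => absurd h hk⟩
  choose s hs using hs'
  have hκN : κ * S.N ≤ 1 / 100 * S.N := mul_le_mul_of_nonneg_right hκ' hN.le
  -- the first scale
  have hex : ∃ k : ℕ, S.rho / 8 ≤ 2 ^ k * S.h := ⟨S.J, by
    rw [mul_comm, hS.hJ]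
    linarith⟩
  classical
  obtain ⟨k0, hk0, hk0m⟩ : ∃ k0 : ℕ, S.rho / 8 ≤ 2 ^ k0 * S.h ∧
      ∀ j < k0, ¬ S.rho / 8 ≤ 2 ^ j * S.h :=
    ⟨Nat.find hex, Nat.find_spec hex, fun j hj => Nat.find_min hex hj⟩
  have hk01 : k0 ≠ 0 := by
    intro h
    rw [h, pow_zero, one_mul] at hk0
    linarith
  obtain ⟨k1, rfl⟩ := Nat.exists_eq_succ_of_ne_zero hk01
  have hk1 : 2 ^ (k1 + 1) * S.h < S.rho / 4 := by
    have h1 := hk0m k1 (Nat.lt_succ_self _)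
    rw [not_le] at h1
    rw [pow_succ]
    linarith
  have hk0J : k1 + 1 ≤ S.J := by
    by_contra hc
    have hc' : S.J ≤ k1 + 1 := by omega
    have h1 : (2 : ℝ) ^ S.J ≤ 2 ^ (k1 + 1) := pow_le_pow_right₀ (by norm_num) hc'
    have h2 : S.h * 2 ^ S.J ≤ 2 ^ (k1 + 1) * S.h := by nlinarith
    rw [hS.hJ] at h2
    linarith
  have hsmall : s (k1 + 1) ≤ 1 / 2 := by
    have hw := hrel.shf (2 ^ (k1 + 1)) (by push_cast; exact hk1.le)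
    push_cast at hw
    have hout := Par.cnt_out (S := S) ((2 : ℤ) ^ (k1 + 1))
    have hv : |(((2 : ℤ) ^ (k1 + 1) : ℤ) : ℝ)| ≤ 1 / 100 * S.N := by
      push_cast
      rw [abs_of_pos (by positivity)]
      have h1 : (2 : ℝ) ^ (k1 + 1) * S.h ≤ 1 / 100 * S.N * S.h := by linarith
      exact le_of_mul_le_mul_right h1 hh0
    have h1 := (Par.cnt_or (S := S) (fun t => t + 2 ^ (k1 + 1) ∉ S.I)
      (fun t => (t + 2 ^ (k1 + 1) ∈ S.I ∧ ¬ ShR S ε₀ θ φ t (2 ^ (k1 + 1))) ∨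
        1 / 4 < |F1 S ε₁ θ (k1 + 1) t - s (k1 + 1)|))
    have h2 := (Par.cnt_or (S := S)
      (fun t => t + 2 ^ (k1 + 1) ∈ S.I ∧ ¬ ShR S ε₀ θ φ t (2 ^ (k1 + 1)))
        (fun t => 1 / 4 < |F1 S ε₁ θ (k1 + 1) t - s (k1 + 1)|))
    have h3 := hs (k1 + 1) hk0J
    obtain ⟨t, htI, ht⟩ := Par.exists_not (S := S) hN.le
      (E := fun t => t + 2 ^ (k1 + 1) ∉ S.I ∨
        ((t + 2 ^ (k1 + 1) ∈ S.I ∧ ¬ ShR S ε₀ θ φ t (2 ^ (k1 + 1))) ∨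
        1 / 4 < |F1 S ε₁ θ (k1 + 1) t - s (k1 + 1)|)) (by linarith)
    rw [not_or, not_or, not_not] at ht
    obtain ⟨ht1, ht2, ht3⟩ := ht
    have ht4 : ShR S ε₀ θ φ t (2 ^ (k1 + 1)) := by
      by_contra hc
      exact ht2 ⟨ht1, hc⟩
    obtain ⟨τ, hτ, h5, -⟩ := ht4
    have h6 := ph1_le hτ (θ (t + 2 ^ (k1 + 1))) (θ t)
    have hx := Par.x_pos (S := S) t
    have h7 : y1 S ε₁ θ (k1 + 1) t ≤ 1 / 4 := by
      unfold y1
      have h8 : S.rho * S.x t / ε₁ * min (nd (θ (t + 2 ^ (k1 + 1)) - θ t))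
          (nd (θ (t + 2 ^ (k1 + 1)) + θ t)) ≤ S.rho * S.x t / ε₁ * (ε₀ / (S.rho * S.x t)) :=
        mul_le_mul_of_nonneg_left (h6.trans h5) (by positivity)
      refine h8.trans ?_
      have h9 : S.rho * S.x t / ε₁ * (ε₀ / (S.rho * S.x t)) = ε₀ / ε₁ := by
        field_simp
      rw [h9, div_le_iff₀ hε1]
      linarith
    have h8 : F1 S ε₁ θ (k1 + 1) t ≤ 1 / 4 := (min_le_left _ _).trans h7
    rw [not_lt] at ht3
    have h9 := abs_le.1 ht3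
    linarith [h9.1]
  -- some later constant is large
  have hbig : ∃ k : ℕ, k1 + 1 ≤ k ∧ k ≤ S.J ∧ 7 < s k := by
    by_contra hc
    push Not at hc
    have h7 := hc S.J hk0J le_rfl
    have hne := hNE S ε₀ θ φ hS hSK (le_trans (le_max_left _ _) hX) hε0 (by linarith)
      ((hRMO S (1 / 100) ε₀ (1 / 10) ε₀ η θ φ hS (by norm_num) le_rfl).1 hrel)
    have h1 : S.cnt (fun t => 8 < y1 S ε₁ θ S.J t) ≤
        S.cnt (fun t => 1 / 4 < |F1 S ε₁ θ S.J t - s S.J|) := by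
      apply Par.cnt_mono
      intro t _ ht
      have h2 : 8 < F1 S ε₁ θ S.J t := lt_min ht (by norm_num)
      refine lt_of_lt_of_le ?_ (le_abs_self _)
      linarith
    have h2 := hs S.J le_rfl
    linarith
  obtain ⟨k', ⟨hk'1, hk'2, hk'3⟩, hmin⟩ : ∃ k' : ℕ, (k1 + 1 ≤ k' ∧ k' ≤ S.J ∧ 7 < s k') ∧
      ∀ j < k', ¬ (k1 + 1 ≤ j ∧ j ≤ S.J ∧ 7 < s j) :=
    ⟨Nat.find hbig, Nat.find_spec hbig, fun j hj => Nat.find_min hbig hj⟩
  have hne : k' ≠ k1 + 1 := by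
    intro h
    rw [h] at hk'3
    linarith
  obtain ⟨k, rfl⟩ : ∃ k, k' = k + 1 := ⟨k' - 1, by omega⟩
  have hk1k : k1 + 1 ≤ k := by omega
  have hs7 : s k ≤ 7 := by
    by_contra hc
    exact hmin k (Nat.lt_succ_self _) ⟨hk1k, by omega, not_le.1 hc⟩
  have hkJ : k < S.J := by omega
  have hvN : (2 : ℝ) ^ k ≤ 1 / 10 * S.N := by
    have h1 : (2 : ℝ) ^ k ≤ 2 ^ S.J := pow_le_pow_right₀ (by norm_num) hkJ.le
    have h2 : (2 : ℝ) ^ k * S.h ≤ 1 / 10 * S.N * S.h := by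
      have h3 := mul_le_mul_of_nonneg_right h1 hh0.le
      have h4 := hS.hJ
      rw [mul_comm] at h4
      linarith
    exact le_of_mul_le_mul_right h2 hh0
  have hs3 : 3 ≤ s k := by
    have hout := Par.cnt_out (S := S) ((2 : ℤ) ^ k)
    have hv : |(((2 : ℤ) ^ k : ℤ) : ℝ)| ≤ 1 / 10 * S.N := by
      push_cast
      rw [abs_of_pos (by positivity)]
      exact hvN
    have g1 := hs k hkJ.le
    have g2 := Par.cnt_shift (S := S) (fun t => 1 / 4 < |F1 S ε₁ θ k t - s k|) (2 ^ k)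
    have g3 := hs (k + 1) hk'2
    have c1 := Par.cnt_or (S := S) (fun t => t + 2 ^ k ∉ S.I)
      (fun t => 1 / 4 < |F1 S ε₁ θ k t - s k|)
    have c2 := Par.cnt_or (S := S)
      (fun t => t + 2 ^ k ∈ S.I ∧ 1 / 4 < |F1 S ε₁ θ k (t + 2 ^ k) - s k|)
      (fun t => 1 / 4 < |F1 S ε₁ θ (k + 1) t - s (k + 1)|)
    have c3 := Par.cnt_or (S := S)
      (fun t => t + 2 ^ k ∉ S.I ∨ 1 / 4 < |F1 S ε₁ θ k t - s k|)
      (fun t => (t + 2 ^ k ∈ S.I ∧ 1 / 4 < |F1 S ε₁ θ k (t + 2 ^ k) - s k|) ∨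
        1 / 4 < |F1 S ε₁ θ (k + 1) t - s (k + 1)|)
    obtain ⟨t, htI, ht⟩ := Par.exists_not (S := S) hN.le
      (E := fun t => (t + 2 ^ k ∉ S.I ∨ 1 / 4 < |F1 S ε₁ θ k t - s k|) ∨
        ((t + 2 ^ k ∈ S.I ∧ 1 / 4 < |F1 S ε₁ θ k (t + 2 ^ k) - s k|) ∨
        1 / 4 < |F1 S ε₁ θ (k + 1) t - s (k + 1)|)) (by linarith)
    rw [not_or, not_or, not_or, not_not] at ht
    obtain ⟨⟨ht1, ht2⟩, ht3, ht4⟩ := ht
    have ht3' : ¬ 1 / 4 < |F1 S ε₁ θ k (t + 2 ^ k) - s k| := fun hc => ht3 ⟨ht1, hc⟩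
    rw [not_lt] at ht2 ht3' ht4
    have a1 := (abs_le.1 ht2).2
    have a2 := (abs_le.1 ht3').2
    have a3 := (abs_le.1 ht4).1
    have b1 : y1 S ε₁ θ k t ≤ s k + 1 / 4 := by
      rcases min_cases (y1 S ε₁ θ k t) 16 with h | h
      · have : F1 S ε₁ θ k t = y1 S ε₁ θ k t := h.1
        linarith
      · have : F1 S ε₁ θ k t = 16 := h.1
        linarith
    have b2 : y1 S ε₁ θ k (t + 2 ^ k) ≤ s k + 1 / 4 := by
      rcases min_cases (y1 S ε₁ θ k (t + 2 ^ k)) 16 with h | h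
      · have : F1 S ε₁ θ k (t + 2 ^ k) = y1 S ε₁ θ k (t + 2 ^ k) := h.1
        linarith
      · have : F1 S ε₁ θ k (t + 2 ^ k) = 16 := h.1
        linarith
    have b3 := ph1_double S hh0 hr0 hε1 θ k t
    have b4 : F1 S ε₁ θ (k + 1) t ≤ y1 S ε₁ θ (k + 1) t := min_le_left _ _
    linarith
  refine ⟨k, s k, s (k + 1), hkJ, ?_, hs3, hs7, hk'3, hs k hkJ.le, hs (k + 1) hk'2⟩
  refine hk0.trans ?_
  exact mul_le_mul_of_nonneg_right (pow_le_pow_right₀ (by norm_num) hk1k) hh0.le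

end Pool.Agent.H54.N4D
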