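import Pool.Agent.H6.N4D.TC

/-!
# The end game: assembly, monotonicity and rigidity
-/

set_option autoImplicit false

open Finset

namespace Pool.Agent.H54.N4D

open Pool.Agent.H6.N4D

theorem pf_END (B : ℕ) (c X₁ : ℝ) (hG : Gap B c X₁) (hREL : T_REL) (hWIN : T_WIN) :
    T_END := by
  obtain ⟨ε, ε₀, K, hε, hε₀, hK, hR⟩ := hREL B c X₁ hG
  obtain ⟨δ, Q, hδ, hW⟩ := hWIN K ε ε₀ hK hε hε₀
  refine ⟨δ, Q, hδ, ?_⟩
  intro η hη
  obtain ⟨e, X₀, he, hw⟩ := hW η hη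
  obtain ⟨X₀', hr⟩ := hR η hη
  refine ⟨e, max X₀ X₀', he, ?_⟩
  intro X Y lam hX hY1 hY2 hL hsum
  obtain ⟨S, θ, φ, hS, hSK, hSX, hrel⟩ :=
    hw X Y lam (le_trans (le_max_left _ _) hX) hY1 hY2 hL hsum
  exact hr S θ φ hS hSK (by rw [hSX]; exact le_trans (le_max_right _ _) hX) hrel

theorem rmo_N {S : Par} (hS : S.Ok) : 0 ≤ S.N := by
  have hL : 0 ≤ S.L := Real.rpow_nonneg (Real.log_nonneg hS.hX) _
  have h1 : 0 ≤ S.N * S.h := le_trans (by positivity) hS.hI1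
  exact nonneg_of_mul_nonneg_left h1 hS.hh

theorem pf_RMO : T_RMO := by
  intro S ε ε₀ ε' ε₀' η θ φ hS hε hε₀
  have hN := rmo_N hS
  have hm : ε * S.N ≤ ε' * S.N := mul_le_mul_of_nonneg_right hε hN
  have hd : ∀ t : ℤ, 0 ≤ S.rho * S.x t := fun t => mul_nonneg hS.hr0.le (Par.x_pos t).le
  have hsh : ∀ (t w : ℤ), ShR S ε₀ θ φ t w → ShR S ε₀' θ φ t w := by
    rintro t w ⟨τ, hτ, h1, h2⟩
    exact ⟨τ, hτ, h1.trans (div_le_div_of_nonneg_right hε₀ (hd t)), h2.trans hε₀⟩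
  have hmu : ∀ (p : ℕ), (p : ℝ) * ε₀ ≤ p * ε₀' := fun p =>
    mul_le_mul_of_nonneg_left hε₀ (Nat.cast_nonneg p)
  have hed : ∀ (p : ℕ) (t : ℤ), EdR S ε₀ θ φ p t → EdR S ε₀' θ φ p t := by
    rintro p t ⟨τ, hτ, h1, h2⟩
    exact ⟨τ, hτ, h1.trans (div_le_div_of_nonneg_right (hmu p) (hd t)), h2.trans hε₀⟩
  have hos : ∀ (t w : ℤ), OSh S ε₀ θ φ t w → OSh S ε₀' θ φ t w := by
    rintro t w ⟨h1, h2⟩
    exact ⟨h1.trans (div_le_div_of_nonneg_right hε₀ (hd t)), h2.trans hε₀⟩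
  have hoe : ∀ (p : ℕ) (t : ℤ), OEd S ε₀ θ φ p t → OEd S ε₀' θ φ p t := by
    rintro p t ⟨h1, h2⟩
    exact ⟨h1.trans (div_le_div_of_nonneg_right (hmu p) (hd t)), h2.trans hε₀⟩
  constructor
  · intro h
    refine ⟨h.gen.trans hm, ?_, ?_, ?_⟩
    · intro w hw
      exact (Par.cnt_mono fun t _ ht => ⟨ht.1, fun hc => ht.2 (hsh _ _ hc)⟩).trans
        ((h.shf w hw).trans hm)
    · refine le_trans (Finset.sum_le_sum fun p _ => ?_) (h.edg.trans hm)
      exact mul_le_mul_of_nonneg_left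
        (Par.cnt_mono fun t _ ht => ⟨ht.1, fun hc => ht.2 (hed _ _ hc)⟩) (by positivity)
    · exact (Par.cnt_mono fun t _ ht => ⟨ht.1, fun hc => ht.2 (hed _ _ hc)⟩).trans
        (h.two.trans hm)
  · intro h
    refine ⟨?_, ?_, ?_⟩
    · intro w hw
      exact (Par.cnt_mono fun t _ ht => ⟨ht.1, fun hc => ht.2 (hos _ _ hc)⟩).trans
        ((h.shf w hw).trans hm)
    · refine le_trans (Finset.sum_le_sum fun p _ => ?_) (h.edg.trans hm)
      exact mul_le_mul_of_nonneg_left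
        (Par.cnt_mono fun t _ ht => ⟨ht.1, fun hc => ht.2 (hoe _ _ hc)⟩) (by positivity)
    · exact (Par.cnt_mono fun t _ ht => ⟨ht.1, fun hc => ht.2 (hoe _ _ hc)⟩).trans
        (h.two.trans hm)

/-- the sign can be moved inside the wave -/
theorem rig_cos {σ : ℝ} (h : σ = 1 ∨ σ = -1) (x : ℝ) :
    Real.cos (2 * Real.pi * (σ * x)) = Real.cos (2 * Real.pi * x) := by
  rcases h with h | h <;> subst h
  · rw [one_mul]
  · rw [show 2 * Real.pi * (-1 * x) = -(2 * Real.pi * x) by ring, Real.cos_neg]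

theorem rig_cos_int (x : ℝ) (k : ℤ) :
    Real.cos (2 * Real.pi * (x + k)) = Real.cos (2 * Real.pi * x) := by
  rw [show 2 * Real.pi * (x + k) = 2 * Real.pi * x + k * (2 * Real.pi) by ring]
  exact Real.cos_add_int_mul_two_pi _ _

theorem pf_RIG (hSQQ : T_SQQ) (hFRQ : T_FRQ) (hRFN : T_RFN) : T_RIG := by
  intro ε hε
  have hε₁ : 0 < min ε (1 / 4) := lt_min hε (by norm_num)
  obtain ⟨Q₁, hQ₁⟩ := hRFN (min ε (1 / 4)) hε₁ (min_le_right _ _)
  refine ⟨max 2 Q₁, ?_⟩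
  intro η hη
  obtain ⟨e', N', he', hR⟩ := hQ₁ η hη
  obtain ⟨ζ, hζ⟩ : ∃ ζ : ℝ, ζ = min η 1 / 13 := ⟨_, rfl⟩
  have hm1 : 0 < min η 1 := lt_min hη one_pos
  have hζ0 : 0 < ζ := by rw [hζ]; positivity
  have hζη : 13 * ζ ≤ η := by
    rw [hζ]
    have := min_le_left η 1
    linarith
  have hζ1 : 13 * ζ ≤ 1 := by
    rw [hζ]
    have := min_le_right η 1
    linarith
  refine ⟨min e' (ζ / 4), max N' (⌈8 / ζ⌉₊ + 1), lt_min he' (by positivity), ?_⟩
  intro N hN α β α' β' hgen her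
  have hN' : N' ≤ N := le_trans (le_max_left _ _) hN
  have hN8 : 8 / ζ ≤ N := by
    have h1 : ⌈8 / ζ⌉₊ ≤ N := by
      have := le_trans (le_max_right _ _) hN
      omega
    exact (Nat.le_ceil _).trans (by exact_mod_cast h1)
  have hζN : 8 ≤ ζ * N := by
    rw [div_le_iff₀ hζ0] at hN8
    linarith
  have hNpos : (0 : ℝ) < N := by
    by_contra hc
    have hc' : (N : ℝ) ≤ 0 := not_lt.1 hc
    nlinarith
  obtain ⟨m, hm⟩ : ∃ m : ℕ, m = ⌊ζ * N / 4⌋₊ := ⟨_, rfl⟩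
  have hmle : (m : ℝ) ≤ ζ * N / 4 := by
    rw [hm]
    exact Nat.floor_le (by positivity)
  have hmge : ζ * N / 8 ≤ (m : ℝ) := by
    have h1 : ζ * N / 4 < (m : ℝ) + 1 := by
      rw [hm]
      exact Nat.lt_floor_add_one _
    linarith
  have hm1' : 1 ≤ m := by
    have h1 : (1 : ℝ) ≤ m := by linarith
    exact_mod_cast h1
  have hmpos : (0 : ℝ) < m := by exact_mod_cast hm1'
  have hclose : ∀ q : ℕ, 1 ≤ q → q ≤ m → |nd (q * α) - nd (q * α')| ≤ ζ := by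
    intro q hq hqm
    have hqm' : (q : ℝ) ≤ m := by exact_mod_cast hqm
    have h2 : 2 * q ≤ N := by
      have h3 : (2 * q : ℝ) ≤ N := by nlinarith
      exact_mod_cast h3
    have h4 := hSQQ α β α' β' (min e' (ζ / 4)) N q hq h2 her
    have h5 : min e' (ζ / 4) ≤ ζ / 4 := min_le_right _ _
    have h6 : 2 * (q : ℝ) / N ≤ ζ / 2 := by
      rw [div_le_iff₀ hNpos]
      linarith
    linarith
  have h2α : 12 * ζ < nd (2 * α') := by
    have h1 := hgen 2 (by norm_num) (le_max_left _ _)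
    push_cast at h1
    linarith
  obtain ⟨σ, k, hσ, hσk⟩ := hFRQ α α' ζ m hζ0 h2α hm1' hclose
  obtain ⟨γ, hγ⟩ : ∃ γ : ℝ, γ = α - σ * α' - k := ⟨_, rfl⟩
  have hγ16 : |γ| ≤ 16 / N := by
    rw [hγ]
    refine hσk.trans ?_
    rw [div_le_div_iff₀ hmpos hNpos]
    nlinarith
  have hgen' : ∀ q : ℕ, 1 ≤ q → q ≤ Q₁ → η ≤ nd (q * (σ * α')) := by
    intro q hq hqQ
    have h1 := hgen q hq (le_trans hqQ (le_max_right _ _))
    rw [show (q : ℝ) * (σ * α') = σ * (q * α') by ring, nd_pm hσ]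
    exact h1
  have heq : er N (σ * α' + γ) β (σ * α') (σ * β') = er N α β α' β' := by
    unfold er
    congr 1
    apply Finset.filter_congr
    intro j _
    have e1 : Real.cos (2 * Real.pi * ((σ * α' + γ) * j + β)) =
        Real.cos (2 * Real.pi * (α * j + β)) := by
      have h1 := rig_cos_int ((σ * α' + γ) * j + β) (k * j)
      rw [← h1]
      congr 2
      rw [hγ]
      push_cast
      ring
    have e2 : Real.cos (2 * Real.pi * (σ * α' * j + σ * β')) =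
        Real.cos (2 * Real.pi * (α' * j + β')) := by
      rw [← rig_cos hσ (α' * j + β')]
      congr 2
      ring
    rw [e1, e2]
  have her' : (er N (σ * α' + γ) β (σ * α') (σ * β') : ℝ) ≤ e' * N := by
    rw [heq]
    refine her.trans (mul_le_mul_of_nonneg_right (min_le_left _ _) hNpos.le)
  obtain ⟨hr1, hr2⟩ := hR N hN' (σ * α') β (σ * β') γ hgen' hγ16 her'
  have hσ2 : σ * σ = 1 := by rcases hσ with h | h <;> rw [h] <;> norm_num
  refine ⟨σ, hσ, ?_, ?_⟩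
  · have h1 : nd (α' - σ * α) = nd γ := by
      rw [← nd_pm hσ (α' - σ * α), ← nd_neg]
      rw [show -(σ * (α' - σ * α)) = γ + k by
        rw [hγ]
        linear_combination α * hσ2]
      exact nd_add_int γ k
    rw [h1]
    refine (nd_le_abs γ).trans (hr1.trans ?_)
    exact div_le_div_of_nonneg_right (min_le_left _ _) hNpos.le
  · have h1 : nd (β' - σ * β) = nd (β - σ * β') := by
      rw [← nd_pm hσ (β' - σ * β), ← nd_neg]
      congr 1
      linear_combination β * hσ2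
    rw [h1]
    exact hr2.trans (min_le_left _ _)

end Pool.Agent.H54.N4D
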